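import Mathlib
import Pool.Agent.Y408.LP.Inf

set_option autoImplicit false

/-!
# Packings of finite and infinite triangle-free planar graphs, for all list sizes at least four

The starting result `MaxFour` says that the maximum of the list packing number over the finite
triangle-free planar graphs is `4`.  Here it is shown, for finite and infinite graphs and for all
`k ≥ 4`, that every `k`-fold correspondence cover (also with partial matchings) of a graph has a
packing if all nonempty finite vertex sets `W` of the graph span at most `2 |W| - 2` edges, in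
particular if the graph is triangle-free and planar; so both maxima, of the list packing number and
of the correspondence packing number, are `4` over all finite and infinite triangle-free planar
graphs.
-/

namespace Pool.Agent.Results.MP_be0db5_co.InfiniteGraphs

open Pool.Agent.TH455
open Pool.Agent.H239R2.Planar (HasStraightLineDrawing)

/-- Every nonempty finite set `W` of vertices spans at most `2 |W| - 2` edges. -/
def SpansFew {V : Type} (G : SimpleGraph V) : Prop :=
  ∀ W : Finset V, W.Nonempty → {e ∈ G.edgeSet | ∀ v ∈ e, v ∈ W}.ncard + 2 ≤ 2 * W.card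

/-- Every finite induced subgraph of `G` is planar: it has a straight-line drawing in the plane,
or it has no `K₅` minor and no `K₃,₃` minor.  The graph `G` may be infinite. -/
def FinitelyPlanar {V : Type} (G : SimpleGraph V) : Prop :=
  ∀ W : Finset V, HasStraightLineDrawing (G.induce (W : Set V)) ∨
    NoKMinor (G.induce (W : Set V))

/-- Every system `X` of partial matchings, along the edges of `G`, between copies of the set of
colours `{0, ..., k-1}` at the vertices (`X u v i j`: the colour `i` at `u` conflicts with the
colour `j` at `v`) has a packing: `k` choices of colours `π · t`, pairwise different at every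
vertex, each without conflicts. -/
def PartialCoversPackable {V : Type} (G : SimpleGraph V) (k : ℕ) : Prop :=
  ∀ X : V → V → Fin k → Fin k → Prop,
    (∀ u v i j, X u v i j → X v u j i) →
    (∀ u v, G.Adj u v → ∀ i j j', X u v i j → X u v i j' → j = j') →
    ∃ π : V → Fin k → Fin k, (∀ v, Function.Injective (π v)) ∧
      ∀ u v, G.Adj u v → ∀ t, ¬ X u v (π u t) (π v t)

/-- Every assignment of lists of exactly `k` elements of an arbitrary set to the vertices of `G`
has a packing: `k` proper list colourings which pairwise differ at every vertex. -/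
def ListsPackable {V : Type} (G : SimpleGraph V) (k : ℕ) : Prop :=
  ∀ (α : Type) (L : V → Finset α), (∀ v, (L v).card = k) →
    ∃ c : Fin k → V → α, (∀ i v, c i v ∈ L v) ∧ (∀ i u v, G.Adj u v → c i u ≠ c i v) ∧
      ∀ v i j, i ≠ j → c i v ≠ c j v

/-- (1) Let `G` be a finite or infinite graph all of whose nonempty finite vertex sets `W` span at
most `2 |W| - 2` edges, or which is triangle-free and all of whose finite induced subgraphs are
planar. Then for every `k ≥ 4` all systems of partial matchings along the edges between `k`-element
colour sets, all `k`-fold correspondence covers and all list assignments with `k`-element lists have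
packings.
(2) The maximum of the list packing number over the finite triangle-free graphs with a
straight-line drawing in the plane is `4`.
(3), (4) The maxima of the list packing number and of the correspondence packing number over all
finite and infinite triangle-free graphs whose finite induced subgraphs are planar are both `4`. -/
theorem result :
    (∀ (V : Type) (G : SimpleGraph V), SpansFew G ∨ (FinitelyPlanar G ∧ G.CliqueFree 3) →
      ∀ k : ℕ, 4 ≤ k → PartialCoversPackable G k ∧ (∀ C : Cover G k, C.HasPacking) ∧
        ListsPackable G k) ∧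
    IsGreatest {k : ℕ | ∃ (V : Type) (_ : Fintype V) (G : SimpleGraph V),
      HasStraightLineDrawing G ∧ G.CliqueFree 3 ∧ listPackingNumber G = k} 4 ∧
    IsGreatest {k : ℕ | ∃ (V : Type) (G : SimpleGraph V),
      FinitelyPlanar G ∧ G.CliqueFree 3 ∧ listPackingNumber G = k} 4 ∧
    IsGreatest {k : ℕ | ∃ (V : Type) (G : SimpleGraph V),
      FinitelyPlanar G ∧ G.CliqueFree 3 ∧ corrPackingNumber G = k} 4 := by
  have sp : ∀ (V : Type) (G : SimpleGraph V), SpansFew G ∨ (FinitelyPlanar G ∧ G.CliqueFree 3) →
      Sparse (gi G) := by
    rintro V G (h | ⟨h1, h2⟩)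
    · exact Y408.LP.sparse_of_spans h
    · exact Y408.LP.sparse_of_planar h1 h2
  have up : ∀ (V : Type) (G : SimpleGraph V), SpansFew G ∨ (FinitelyPlanar G ∧ G.CliqueFree 3) →
      ListPackable G 4 := by
    intro V G h L hL
    obtain ⟨c, h1, h2, h3⟩ := Y408.LP.list_of_match (Y408.LP.matchPack_four (sp V G h)) L hL
    exact ⟨c, h1, h2, h3⟩
  have fin : ∀ (V : Type) (G : SimpleGraph V), HasStraightLineDrawing G → FinitelyPlanar G :=
    fun V G h W => Or.inl (Y408.LP.drawing_induce h _)
  have ex : listPackingNumber Ex15.G = 4 := by
    apply sInf_eq_four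
    · exact ⟨by norm_num, up _ _ (Or.inr ⟨fin _ _ Ex15.drawing, Ex15.triangle_free⟩)⟩
    · rintro ⟨h, _⟩; omega
    · rintro ⟨_, h⟩; exact Ex15.no1 h
    · rintro ⟨_, h⟩; exact Ex15.no2 h
    · rintro ⟨_, h⟩; exact Ex15.no3 h
  refine ⟨?_, ⟨⟨Fin 15, inferInstance, Ex15.G, Ex15.drawing, Ex15.triangle_free, ex⟩, ?_⟩,
    ⟨⟨Fin 15, Ex15.G, fin _ _ Ex15.drawing, Ex15.triangle_free, ex⟩, ?_⟩,
    ⟨⟨Fin 4, C4.G, fin _ _ C4.drawing, C4.bipartite.cliqueFree (by norm_num), C4.corr_eq⟩, ?_⟩⟩
  · intro V G h k hk
    have hm := Y408.LP.matchPack_all (sp V G h) k hk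
    exact ⟨hm, Y408.LP.cover_of_match (by omega) hm, fun α L hL => Y408.LP.list_of_match hm L hL⟩
  · rintro k ⟨V, _, G, h1, h2, rfl⟩
    exact listPackingNumber_le (by norm_num) (up V G (Or.inr ⟨fin _ _ h1, h2⟩))
  · rintro k ⟨V, G, h1, h2, rfl⟩
    exact listPackingNumber_le (by norm_num) (up V G (Or.inr ⟨h1, h2⟩))
  · rintro k ⟨V, G, h1, h2, rfl⟩
    exact corrPackingNumber_le (by norm_num)
      (Y408.LP.cover_of_match (by norm_num) (Y408.LP.matchPack_four (sp V G (Or.inr ⟨h1, h2⟩))))

end Pool.Agent.Results.MP_be0db5_co.InfiniteGraphs
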